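import Mathlib
import Pool.Agent.H84.AC.MainW

/-!
# The square-root sum problem: average and smoothed polynomial time

One deterministic algorithm decides every instance of the square-root sum problem. Let `A` be any list of `n` numbers and `x` a
random list, `x i` uniform on the `W i` numbers above `A i`, where each `W i` is at least `A i / C` (noise of relative size
`1 / C`) or at least `K * (n + 2)` (noise of linear absolute size). An adversary who sees `x` changes at most `ρ` of the numbers
(within the same intervals) and chooses the threshold. The mean of the time for the instance `(y x, κ x)` obtained is at most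
`D * Λ ^ (ρ * (size n + 1))` times a polynomial in the length of `A + W` and the maximal length of the threshold; `D` depends only
on `C`. The case `A = 0` is the mean over the lists below any list `W`; the case `A = 0`, `ρ = 0`, `W i = N` for all `i`, `κ`
constant is the mean over the lists of `n` numbers from `1` to `N` for a fixed threshold.
-/

set_option autoImplicit false

namespace Pool.Agent.Results.MP_3b0ce5_lc.AverageCase

open Pool.Agent.H92.SR Pool.Agent.H92.SR.Tr

open Classical in
theorem result : ∃ (c : Prog) (T : List ℕ → ℕ → ℕ) (q : Polynomial ℕ) (Λ K : ℕ), 1 ≤ Λ ∧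
    (∀ (L : List ℕ) (k : ℕ),
      Eval c (encI L k) (bit (decide ((L.map fun a : ℕ => √(a : ℝ)).sum ≤ k))) (T L k)) ∧
    ∀ C : ℕ, ∃ D : ℕ, ∀ (n : ℕ) (A W : Fin n → ℕ) (ρ B : ℕ) (y : (Fin n → ℕ) → Fin n → ℕ)
      (κ : (Fin n → ℕ) → ℕ),
      (∀ i, 1 ≤ W i ∧ (A i ≤ C * W i ∨ K * (n + 2) ≤ W i)) →
      (∀ x ∈ Fintype.piFinset (fun i => Finset.Ioc (A i) (A i + W i)),
        y x ∈ Fintype.piFinset (fun i => Finset.Ioc (A i) (A i + W i)) ∧
        (Finset.univ.filter fun i => y x i ≠ x i).card ≤ ρ ∧ Nat.size (κ x) ≤ B) →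
      ∑ x ∈ Fintype.piFinset (fun i => Finset.Ioc (A i) (A i + W i)), T (List.ofFn (y x)) (κ x) ≤
        (∏ i, W i) *
          (D * q.eval (n + ∑ i, Nat.size (A i + W i) + B) * Λ ^ (ρ * (Nat.size n + 1))) := by
  obtain ⟨c, T, q, Λ, K, hΛ, h1, h2⟩ := Pool.Agent.H84.AC.mainW
  refine ⟨c, T, q, Λ, K, hΛ, fun L k => ?_, h2⟩
  have e : decide ((L.map fun a : ℕ => √(a : ℝ)).sum ≤ k) = decide (EE L k ≤ 0) := by
    apply decide_eq_decide.2
    unfold EE
    rw [sub_nonpos]
  rw [e]
  exact h1 L k

end Pool.Agent.Results.MP_3b0ce5_lc.AverageCase
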