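import Mathlib
import Pool.Agent.H84.KE.Fin

/-!
# The square-root sum problem: the `K` shortest graphs on points with random first coordinates

The points are in an arbitrary position (any dimension; `Y i j` is the square of the distance of the points `i` and `j` in all
coordinates but the first). Their first coordinates are independent random natural numbers, the coordinate of the point `i` with
distribution `w i` on the finite set `A i`; all but `ρ` of them take no value with probability more than `θ`. `F` is any family of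
graphs on the points (all tours, all perfect matchings, all spanning trees, or any part of such a family). Then with probability
at least `1 - K * (C * (n + 1) ^ (D + 1) * θ) ^ m` the square-root sum problem is solved in time `Λ ^ (m + ρ)` times a polynomial
on the squared edge lengths of each of the `K` shortest members of `F`, if its degrees are at most `D`, and any bound `k`, and the
mean time is at most `K * Λ ^ ρ` times a polynomial if `2 * Λ * C * (n + 1) ^ (D + 1) * θ ≤ 1`; the graph and `k` may depend on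
the points.
-/

set_option autoImplicit false

namespace Pool.Agent.Results.MP_3b0ce5_lc.EuclideanOptima

open Pool.Agent.H92.SR Pool.Agent.H92.SR.Tr Pool.Agent.H84.SM Pool.Agent.H84.KE

open Classical in
theorem result : ∃ (c : Prog) (T : List ℕ → ℕ → ℕ),
    (∀ (L : List ℕ) (k : ℕ),
      Eval c (encI L k) (bit (decide ((L.map fun a : ℕ => √(a : ℝ)).sum ≤ k))) (T L k)) ∧
    ∀ D : ℕ, ∃ (C Λ : ℕ) (q : Polynomial ℕ), 1 ≤ C ∧ 1 ≤ Λ ∧
      ∀ (n s ρ K : ℕ) (A : Fin n → Finset ℕ) (w : Fin n → ℕ → ℝ) (Y : Fin n → Fin n → ℕ) (θ : ℝ),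
      (∀ i, ∀ a ∈ A i, Nat.size a ≤ s ∧ 0 ≤ w i a) → (∀ i, ∑ a ∈ A i, w i a = 1) → 0 ≤ θ →
      (Finset.univ.filter fun i => ∃ a ∈ A i, θ < w i a).card ≤ ρ →
      (∀ i j, Y i j = Y j i) → (∀ i j, Nat.size (Y i j) ≤ s) → ∀ F : Set (List (Fin n × Fin n)),
      (∀ m : ℕ, ∑ x ∈ (Fintype.piFinset A).filter (fun x => ∃ (G : List (Fin n × Fin n)) (k : ℕ),
          ShortestK K F Y x G ∧ Deg D G ∧ q.eval (n + s + Nat.size k) * Λ ^ (m + ρ) < T (lens Y x G) k),
        ∏ i, w i (x i) ≤ K * (C * (n + 1) ^ (D + 1) * θ) ^ m) ∧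
      (2 * Λ * C * (n + 1) ^ (D + 1) * θ ≤ 1 →
        ∀ (B : ℕ) (g : (Fin n → ℕ) → List (Fin n × Fin n)) (k : (Fin n → ℕ) → ℕ),
        (∀ x ∈ Fintype.piFinset A, ShortestK K F Y x (g x) ∧ Deg D (g x) ∧ Nat.size (k x) ≤ B) →
        ∑ x ∈ Fintype.piFinset A, (∏ i, w i (x i)) * (T (lens Y x (g x)) (k x) : ℝ) ≤
          ((K * q.eval (n + s + B) * Λ ^ ρ : ℕ) : ℝ)) :=
  mainKE

end Pool.Agent.Results.MP_3b0ce5_lc.EuclideanOptima
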