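import Mathlib
import Pool.Agent.H84.PP.Top2

/-!
# The square-root sum problem: polynomial advice for polynomially many square classes

For every `t` there is a program which decides, with advice of polynomial size that depends only on
the length bound `s` and on a set `R` of polynomially many numbers (of any size), every instance of
size at most `s` of the square-root sum problem whose radicands lie in the square classes of the
numbers `a * ∏ F`, with `a` in `R` and `F` a subset of a set `E` of at most `t` numbers (of any size)
which may depend on the instance.  For `t = 0` and `R = {1, ..., P s}` these are all instances whose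
radicands are at most `P s`.
-/

set_option autoImplicit false

namespace Pool.Agent.Results.MP_3b0ce5_lc.PolynomialAdvice

open Pool.Agent.H92.SR Pool.Agent.H92.SR.Tr

open Classical in
theorem result (t : ℕ) : ∃ c : Prog, ∀ P : Polynomial ℕ, ∃ q : Polynomial ℕ, ∀ (s : ℕ) (R : Finset ℕ),
    R.card ≤ P.eval s →
      ∃ α : Tr, size α ≤ q.eval s ∧ ∀ (L : List ℕ) (k : ℕ),
        L.length + (L.map Nat.size).sum + Nat.size k ≤ s →
        (∃ E : Finset ℕ, E.card ≤ t ∧ ∀ d ∈ L, ∃ a ∈ R, ∃ F ⊆ E,
          a * ∏ e ∈ F, e ≠ 0 ∧ IsSquare (d * (a * ∏ e ∈ F, e))) →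
          ∃ τ ≤ q.eval s, Eval c (node α (encI L k))
            (bit (decide ((L.map fun a : ℕ => √(a : ℝ)).sum ≤ k))) τ := by
  obtain ⟨c, h⟩ := Pool.Agent.H84.PP.main3 t
  exact ⟨c, fun P => h P⟩

end Pool.Agent.Results.MP_3b0ce5_lc.PolynomialAdvice
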