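import Mathlib
import Pool.Agent.H97.SN.Xse

/-!
# The square-root sum problem: random radicands, worst case instances over them

One deterministic algorithm decides every instance of the square-root sum problem. Let `a 0, …, a (n-1)` be independent random
numbers from `1` to `2 ^ b`, with arbitrary laws `ω i` whose atoms are at most `2 ^ (-w)`, and let `X` be any finite set of
vectors of multipliers `x i ≤ 2 ^ r` with at most `s` nonzero entries. If `(16 u) ^ 2 ≤ 2 ^ w` and
`|X| 2 ^ (2 s + r + b) ≤ 2 ^ (u w)` then with probability at least `1 - 2 ^ (-7 u w)` the running time is at most `Λ ^ u` times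
a polynomial simultaneously for all instances over these radicands with multipliers in `X`: all lists of numbers `y ^ 2 * a i`
whose vector of the sums of the `y` used with `a i` is in `X`, and all `k`. The number `n` of the radicands is arbitrary.
-/

set_option autoImplicit false

namespace Pool.Agent.Results.MP_3b0ce5_lc.SemiRandom

open Pool.Agent.H92.SR Pool.Agent.H92.SR.Tr

open Classical in
theorem result : ∃ (c : Prog) (T : List ℕ → ℕ → ℕ) (q : Polynomial ℕ) (Λ : ℕ),
    (∀ (L : List ℕ) (k : ℕ),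
      Eval c (encI L k) (bit (decide ((L.map fun a : ℕ => √(a : ℝ)).sum ≤ k))) (T L k)) ∧
    ∀ (n s r b w u : ℕ) (X : Finset (Fin n → ℕ)) (ω : Fin n → ℕ → ℝ), (16 * u) ^ 2 ≤ 2 ^ w →
      X.card * 2 ^ (2 * s + r + b) ≤ 2 ^ (u * w) →
      (∀ x ∈ X, (∀ i, x i ≤ 2 ^ r) ∧ (Finset.univ.filter fun i => x i ≠ 0).card ≤ s) →
      (∀ i, ∀ y ∈ Finset.Icc 1 (2 ^ b), 0 ≤ ω i y ∧ ω i y * 2 ^ w ≤ 1) →
      (∀ i, ∑ y ∈ Finset.Icc 1 (2 ^ b), ω i y = 1) →
      (∑ a ∈ (Fintype.piFinset fun _ : Fin n => Finset.Icc 1 (2 ^ b)).filter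
        (fun a => ∃ (p : List (Fin n × ℕ)) (k : ℕ),
          (fun i => ((p.filter fun z => z.1 = i).map Prod.snd).sum) ∈ X ∧
          q.eval (p.length + s + b + r + Nat.size k) * Λ ^ u <
            T (p.map fun z => z.2 ^ 2 * a z.1) k), ∏ i, ω i (a i)) * 2 ^ (7 * u * w) ≤ 1 :=
  Pool.Agent.H97.SN.xsem

end Pool.Agent.Results.MP_3b0ce5_lc.SemiRandom
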